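import Pool.Agent.helper51.NP.Spec

set_option autoImplicit false

namespace NPC

open Finset Real ArithmeticFunction Pool.Agent.helper39.MT Pool.Agent.helper85.FC

/-- Pigeonhole over the pairs `i < j`. -/
theorem CNT_pigeon {k : ℕ} (hk : 2 ≤ k) (S : Finset ℕ) (f : ℕ → ℝ) (hf : ∀ n ∈ S, 0 ≤ f n)
    (P : Fin k → ℕ → Prop) [∀ i n, Decidable (P i n)] (c : ℝ)
    (h : c ≤ ∑ n ∈ S with 2 ≤ #{i : Fin k | P i n}, f n) (hc : 0 ≤ c) :
    ∃ i j : Fin k, i < j ∧ c / ((k : ℝ) * k) ≤ ∑ n ∈ S with (P i n ∧ P j n), f n := by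
  classical
  set prs : Finset (Fin k × Fin k) := univ.filter (fun p => p.1 < p.2) with hprs
  have hne : prs.Nonempty := by
    refine ⟨(⟨0, by omega⟩, ⟨1, by omega⟩), ?_⟩
    rw [hprs, mem_filter]
    refine ⟨mem_univ _, ?_⟩
    rw [Fin.lt_def]
    simp
  have hcard : ((prs.card : ℕ) : ℝ) ≤ (k : ℝ) * k := by
    have h1 : prs.card ≤ #(univ : Finset (Fin k × Fin k)) := card_le_card (filter_subset _ _)
    rw [card_univ, Fintype.card_prod, Fintype.card_fin] at h1
    exact_mod_cast h1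
  have hk0 : (0 : ℝ) < (k : ℝ) * k := by
    have : (0 : ℝ) < k := by exact_mod_cast (by omega : 0 < k)
    positivity
  have h1 : ∑ n ∈ S with 2 ≤ #{i : Fin k | P i n}, f n ≤
      ∑ p ∈ prs, ∑ n ∈ S with (P p.1 n ∧ P p.2 n), f n := by
    have h2 : ∀ p ∈ prs, ∑ n ∈ S with (P p.1 n ∧ P p.2 n), f n =
        ∑ n ∈ S, if (P p.1 n ∧ P p.2 n) then f n else 0 := fun p _ => sum_filter _ _
    rw [sum_congr rfl h2, sum_comm, sum_filter]
    refine sum_le_sum fun n hn => ?_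
    split_ifs with h3
    · obtain ⟨i, hi, j, hj, hij⟩ := one_lt_card.1 (lt_of_lt_of_le one_lt_two h3)
      rw [mem_filter] at hi hj
      rcases lt_or_gt_of_ne hij with hlt | hlt
      · have : f n = (if (P (i, j).1 n ∧ P (i, j).2 n) then f n else 0) := by
          rw [if_pos ⟨hi.2, hj.2⟩]
        refine this.le.trans ?_
        refine single_le_sum (f := fun p : Fin k × Fin k => if (P p.1 n ∧ P p.2 n) then f n else 0)
          (fun p _ => ?_) ?_
        · split_ifs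
          · exact hf n hn
          · exact le_rfl
        · rw [hprs, mem_filter]
          exact ⟨mem_univ _, hlt⟩
      · have : f n = (if (P (j, i).1 n ∧ P (j, i).2 n) then f n else 0) := by
          rw [if_pos ⟨hj.2, hi.2⟩]
        refine this.le.trans ?_
        refine single_le_sum (f := fun p : Fin k × Fin k => if (P p.1 n ∧ P p.2 n) then f n else 0)
          (fun p _ => ?_) ?_
        · split_ifs
          · exact hf n hn
          · exact le_rfl
        · rw [hprs, mem_filter]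
          exact ⟨mem_univ _, hlt⟩
    · refine sum_nonneg fun p _ => ?_
      split_ifs
      · exact hf n hn
      · exact le_rfl
  have h2 : ∑ _p ∈ prs, c / ((k : ℝ) * k) ≤ ∑ p ∈ prs, ∑ n ∈ S with (P p.1 n ∧ P p.2 n), f n := by
    refine le_trans ?_ (h.trans h1)
    rw [sum_const, nsmul_eq_mul]
    calc ((prs.card : ℕ) : ℝ) * (c / ((k : ℝ) * k)) ≤ ((k : ℝ) * k) * (c / ((k : ℝ) * k)) :=
          mul_le_mul_of_nonneg_right hcard (by positivity)
      _ = c := by field_simp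
  obtain ⟨p, hp, hp2⟩ := exists_le_of_sum_le hne h2
  rw [hprs, mem_filter] at hp
  exact ⟨p.1, p.2, hp.2, hp2⟩

theorem CNT_cube (hCUB : CUB_stmt) (x : ℕ) (La a : ℝ) (hLa : 0 ≤ La)
    (h : (x : ℝ) < La ^ 3 * Real.exp a) : (cr x : ℝ) < La * Real.exp (a / 3) := by
  by_contra hn
  push Not at hn
  have h1 : (La * Real.exp (a / 3)) ^ 3 ≤ (cr x : ℝ) ^ 3 :=
    pow_le_pow_left₀ (by positivity) hn 3
  have h2 : ((cr x ^ 3 : ℕ) : ℝ) ≤ (x : ℝ) := by exact_mod_cast (hCUB.1 x).1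
  rw [mul_pow, ← Real.exp_nat_mul] at h1
  have h3 : ((3 : ℕ) : ℝ) * (a / 3) = a := by push_cast; ring
  rw [h3] at h1
  push_cast at h2
  linarith

/-- Everything that has to hold for large `a`. -/
theorem CNT_large (K₂ h : ℕ) (aM aF aS D : ℝ) : ∃ a₁ : ℝ, ∀ a : ℝ, a₁ ≤ a →
    aM ≤ a ∧ aF ≤ a ∧ aS ≤ a ∧ D ≤ a ∧ 12 ≤ a ∧
      ((h : ℝ) + 1) * a ^ K₂ ≤ Real.exp (2 * a / 3) := by
  have h1 : (fun x : ℝ => x ^ K₂) =o[Filter.atTop] fun x => Real.exp (2 / 3 * x) :=
    isLittleO_pow_exp_pos_mul_atTop K₂ (by norm_num)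
  have h2 := h1.def (c := 1 / ((h : ℝ) + 1)) (by positivity)
  have h3 := h2.and ((Filter.eventually_ge_atTop aM).and ((Filter.eventually_ge_atTop aF).and
    ((Filter.eventually_ge_atTop aS).and ((Filter.eventually_ge_atTop D).and
      (Filter.eventually_ge_atTop (12 : ℝ))))))
  obtain ⟨a₁, ha₁⟩ := Filter.eventually_atTop.1 h3
  refine ⟨a₁, fun a ha => ?_⟩
  obtain ⟨e1, e2, e3, e4, e5, e6⟩ := ha₁ a ha
  refine ⟨e2, e3, e4, e5, e6, ?_⟩
  rw [Real.norm_eq_abs, Real.norm_eq_abs, abs_of_pos (Real.exp_pos _), abs_of_nonneg (by positivity)]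
    at e1
  have h4 : (2 : ℝ) / 3 * a = 2 * a / 3 := by ring
  rw [h4] at e1
  calc ((h : ℝ) + 1) * a ^ K₂ ≤ ((h : ℝ) + 1) * (1 / ((h : ℝ) + 1) * Real.exp (2 * a / 3)) :=
        mul_le_mul_of_nonneg_left e1 (by positivity)
    _ = Real.exp (2 * a / 3) := by field_simp

theorem CNT (hFRM : FRM_stmt) (hM4S : M4S_stmt) (hS1S : S1S_stmt) (hMAS : MAS_stmt)
    (hABS : ABS_stmt) (hCUB : CUB_stmt) : CNT_stmt := by
  classical
  intro h hh
  obtain ⟨k, D₀, hk2, hkD, c, hc, hMas⟩ := hMAS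
  obtain ⟨A, B, W, K, hStd, hpair⟩ := hFRM h k D₀ hh
  obtain ⟨aM, hMas⟩ := hMas A B W hStd
  obtain ⟨K₁, aF, hM4⟩ := hM4S hStd hkD
  obtain ⟨aS, hS1⟩ := hS1S hStd hkD
  choose! u v s t H using hpair
  set X : ℕ := 1 + ∑ i, ∑ j, (3 * u i j + v i j) with hX
  have hXuv : ∀ i j, 3 * u i j + v i j ≤ X := by
    intro i j
    have e1 : 3 * u i j + v i j ≤ ∑ j, (3 * u i j + v i j) :=
      single_le_sum (f := fun j => 3 * u i j + v i j) (fun _ _ => Nat.zero_le _) (mem_univ j)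
    have e2 : ∑ j, (3 * u i j + v i j) ≤ ∑ i, ∑ j, (3 * u i j + v i j) :=
      single_le_sum (f := fun i => ∑ j, (3 * u i j + v i j)) (fun _ _ => Nat.zero_le _) (mem_univ i)
    omega
  set La : ℝ := 8 * (X : ℝ) with hLa
  have hX1 : (1 : ℝ) ≤ X := by
    have : 1 ≤ X := by rw [hX]; omega
    exact_mod_cast this
  have hLa1 : 8 ≤ La := by rw [hLa]; linarith
  have hLa3 : ∀ i j, 8 * (3 * (u i j : ℝ) + v i j) ≤ La ^ 3 := by
    intro i j
    have e1 : (3 * (u i j : ℝ) + v i j) ≤ X := by exact_mod_cast hXuv i j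
    have e2 : La ≤ La ^ 3 := by
      have : La ^ 1 ≤ La ^ 3 := pow_le_pow_right₀ (by linarith) (by norm_num)
      simpa using this
    calc 8 * (3 * (u i j : ℝ) + v i j) ≤ 8 * X := by linarith
      _ = La := by rw [hLa]
      _ ≤ _ := e2
  have hk0 : (0 : ℝ) < (k : ℝ) * k := by
    have : (0 : ℝ) < k := by exact_mod_cast (by omega : 0 < k)
    positivity
  set c₁ : ℝ := c / ((k : ℝ) * k) with hc₁
  have hc₁0 : 0 < c₁ := by rw [hc₁]; positivity
  set K₂ : ℕ := K₁ + 1 with hK₂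
  set Kc : ℕ := max K K₂ with hKc
  obtain ⟨a₁, ha₁⟩ := CNT_large K₂ h aM aF aS (4 * La / (c₁ / 2) ^ 2)
  refine ⟨Kc, c₁ / (18 * La ^ 2), La, a₁, by positivity, by linarith, fun a ha => ?_⟩
  obtain ⟨haM, haF, haS, haD, ha12, haE⟩ := ha₁ a ha
  have ha0 : 0 < a := by linarith
  obtain ⟨R, y, E₀, hR2, hRa, hy1, hy2, hE1, hEx, hmass⟩ := hMas a haM
  set S₀ : Finset ℕ := Ioc 0 (NN 1 a) with hS₀
  set w : ℕ → ℝ := fun n => wt 1 a n *
    FF (fun p : PS W R => (p : ℕ)) y (pat A B (PS W R) n) ^ 2 with hw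
  have hw0 : ∀ n, 0 ≤ w n := fun n =>
    mul_nonneg (Pool.Agent.helper85.MT.wt_nonneg _ _ _) (sq_nonneg _)
  obtain ⟨i, j, hij, hG⟩ := CNT_pigeon hk2 S₀ w (fun n _ => hw0 n)
    (fun (i : Fin k) (n : ℕ) => (A i * n + B i).Prime) (c * E₀) hmass (by positivity)
  obtain ⟨hu0, hs0, hsK, ht0, htK, hst, Hn⟩ := H i j hij
  set uu := u i j with huu
  set vv := v i j with hvv
  set S : Finset ℕ := S₀.filter (fun n => wt 1 a n ≠ 0) with hS
  set G : Finset ℕ := S.filter (fun n => (A i * n + B i).Prime ∧ (A j * n + B j).Prime) with hGd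
  set ν : ℕ → ℕ := fun n => cr (uu * n + vv) with hν
  set edge : ℕ → Prop := fun n => ¬ (ν n ^ 3 < uu * n + vv ∧ uu * n + vv + h < (ν n + 1) ^ 3)
    with hedge
  have hSpos : ∀ n ∈ S, 0 < n ∧ Real.exp (a + 1 / 2) < n ∧ (n : ℝ) < Real.exp (a + 1) := by
    intro n hn
    rw [hS, mem_filter, hS₀, mem_Ioc] at hn
    exact ⟨hn.1.1, F1_wt_support hn.1.1 hn.2⟩
  have hexp1 : Real.exp (a + 1) ≤ 3 * Real.exp a := by
    rw [Real.exp_add, mul_comm]
    exact mul_le_mul_of_nonneg_right (by linarith [Real.exp_one_lt_d9]) (Real.exp_pos _).le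
  have hexpa1 : 1 ≤ Real.exp a := Real.one_le_exp ha0.le
  -- the cube roots are small
  have hνlt : ∀ n ∈ S, (ν n : ℝ) < La * Real.exp (a / 3) := by
    intro n hn
    obtain ⟨hn0, hn1, hn2⟩ := hSpos n hn
    refine CNT_cube hCUB _ _ _ (by linarith) ?_
    push_cast
    have e1 := hLa3 i j
    have e2 : (0 : ℝ) ≤ vv := Nat.cast_nonneg _
    have e3 : (0 : ℝ) < uu := by exact_mod_cast hu0
    have e4 : (uu : ℝ) * n + vv ≤ (3 * uu + vv) * Real.exp a := by
      have e5 : (uu : ℝ) * n ≤ uu * (3 * Real.exp a) :=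
        mul_le_mul_of_nonneg_left (hn2.le.trans hexp1) e3.le
      nlinarith
    have e6 : (3 * (uu : ℝ) + vv) < La ^ 3 := by
      have : 0 < 3 * (uu : ℝ) + vv := by positivity
      linarith
    exact e4.trans_lt (mul_lt_mul_of_pos_right e6 (Real.exp_pos _))
  set Vc : ℕ := ⌈La * Real.exp (a / 3)⌉₊ with hVc
  set Bc : ℝ := 9 * La ^ 2 * Real.exp (-(a / 3)) with hBc
  set Q : ℝ := Real.exp (-a) * a ^ K₁ with hQ
  set T : ℝ := Real.exp (2 * a / 3) / a ^ K₂ with hT
  have hT0 : 0 < T := by rw [hT]; positivity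
  have hBc0 : 0 < Bc := by rw [hBc]; positivity
  have hQ0 : 0 ≤ Q := by rw [hQ]; positivity
  -- the mass over `G`
  have hGm : c₁ * E₀ ≤ ∑ n ∈ G, w n := by
    have e1 : c₁ * E₀ = c * E₀ / ((k : ℝ) * k) := by rw [hc₁]; ring
    rw [e1]
    refine hG.trans ?_
    have e2 : G = (S₀.filter (fun n => (A i * n + B i).Prime ∧ (A j * n + B j).Prime)).filter
        (fun n => wt 1 a n ≠ 0) := by
      rw [hGd, hS, filter_filter, filter_filter]
      exact filter_congr fun n _ => and_comm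
    have e3 : ∑ n ∈ (S₀.filter (fun n => (A i * n + B i).Prime ∧ (A j * n + B j).Prime)).filter
        (fun n => wt 1 a n ≠ 0), w n =
        ∑ n ∈ S₀.filter (fun n => (A i * n + B i).Prime ∧ (A j * n + B j).Prime), w n := by
      refine sum_filter_of_ne fun n _ hne h0 => hne ?_
      change wt 1 a n * _ = 0
      rw [h0, zero_mul]
    rw [e2, e3]
  -- second moment
  have hQm : ∑ n ∈ S, w n ^ 2 ≤ Q := by
    have e1 : ∀ n ∈ S, w n ^ 2 ≤ Real.exp (-a) * (wt 1 a n *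
        FF (fun p : PS W R => (p : ℕ)) y (pat A B (PS W R) n) ^ 4) := by
      intro n _
      have e2 := B5_wt_le (a := a) n
      have e3 : 0 ≤ wt 1 a n := Pool.Agent.helper85.MT.wt_nonneg _ _ _
      have e4 : w n ^ 2 = wt 1 a n * (wt 1 a n *
          FF (fun p : PS W R => (p : ℕ)) y (pat A B (PS W R) n) ^ 4) := by
        rw [hw]; ring
      rw [e4]
      refine mul_le_mul_of_nonneg_right e2 (mul_nonneg e3 ?_)
      positivity
    refine (sum_le_sum e1).trans ?_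
    rw [← mul_sum]
    refine mul_le_mul_of_nonneg_left ?_ (Real.exp_pos _).le
    refine le_trans ?_ (hM4 a haF R hR2 hRa y hy1 hy2)
    refine sum_le_sum_of_subset_of_nonneg (filter_subset _ _) fun n _ _ => ?_
    refine mul_nonneg (Pool.Agent.helper85.MT.wt_nonneg _ _ _) ?_
    positivity
  -- fibres
  have hfib : ∀ r : ℕ, ∑ n ∈ S with ν n = r, w n ≤ Bc * E₀ := by
    intro r
    rcases (S.filter (fun n => ν n = r)).eq_empty_or_nonempty with h0 | ⟨n₀, hn₀⟩
    · rw [h0, sum_empty]; positivity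
    rw [mem_filter] at hn₀
    have hr : (r : ℝ) < La * Real.exp (a / 3) := by
      rw [← hn₀.2]; exact hνlt n₀ hn₀.1
    obtain ⟨p, q, hpq, hq, hin⟩ := (hCUB.2 h uu vv r hu0).1
    have e1 : ∑ n ∈ S with ν n = r, w n ≤ ∑ n ∈ Ioc p q, Real.exp (-a) *
        FF (fun p : PS W R => (p : ℕ)) y (pat A B (PS W R) n) ^ 2 := by
      calc ∑ n ∈ S with ν n = r, w n ≤ ∑ n ∈ S with ν n = r, Real.exp (-a) *
            FF (fun p : PS W R => (p : ℕ)) y (pat A B (PS W R) n) ^ 2 := by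
            refine sum_le_sum fun n _ => ?_
            exact mul_le_mul_of_nonneg_right (B5_wt_le (a := a) n)
              (sq_nonneg _)
        _ ≤ _ := by
            refine sum_le_sum_of_subset_of_nonneg ?_ fun n _ _ => ?_
            · intro n hn
              rw [mem_filter] at hn
              exact hin n (hSpos n hn.1).1 hn.2
            · exact mul_nonneg (Real.exp_pos _).le (sq_nonneg _)
    refine e1.trans ?_
    rw [← mul_sum]
    have e2 := hS1 a haS R hR2 hRa y hy1 hy2 p q hpq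
    have e3 : ((q : ℝ) - p) ≤ 3 * (r : ℝ) ^ 2 + 3 * r + 2 := by
      have : (q : ℝ) ≤ p + 3 * (r : ℝ) ^ 2 + 3 * r + 2 := by exact_mod_cast hq
      linarith
    have e4 : (0 : ℝ) ≤ (q : ℝ) - p := by
      have : (p : ℝ) ≤ q := by exact_mod_cast hpq
      linarith
    set Z : ℝ := Real.exp (a / 3) with hZ
    have hZ1 : 1 ≤ Z := Real.one_le_exp (by positivity)
    have hZ2 : Real.exp (2 * a / 3) = Z ^ 2 := by
      rw [hZ, ← Real.exp_nat_mul]; congr 1; push_cast; ring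
    have e5 : 3 * (r : ℝ) ^ 2 + 3 * r + 2 ≤ 8 * La ^ 2 * Z ^ 2 := by
      have e6 : (0 : ℝ) ≤ r := Nat.cast_nonneg _
      have e7 : 1 ≤ La * Z := by nlinarith
      have e8 : (r : ℝ) ^ 2 ≤ (La * Z) ^ 2 := pow_le_pow_left₀ e6 hr.le 2
      have e9 : La * Z ≤ (La * Z) ^ 2 := by nlinarith
      have e10 : (1 : ℝ) ≤ (La * Z) ^ 2 := by nlinarith
      calc 3 * (r : ℝ) ^ 2 + 3 * r + 2 ≤ 3 * (La * Z) ^ 2 + 3 * (La * Z) ^ 2 + 2 * (La * Z) ^ 2 := by
            linarith
        _ = 8 * La ^ 2 * Z ^ 2 := by ring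
    have e6 : Real.exp (a / 2) ≤ La ^ 2 * Z ^ 2 * E₀ := by
      have e7 : Real.exp (a / 2) ≤ Z ^ 2 := by
        rw [← hZ2]; exact Real.exp_le_exp.2 (by linarith)
      have e8 : 1 ≤ La ^ 2 := one_le_pow₀ (by linarith)
      have e9 : Z ^ 2 ≤ La ^ 2 * Z ^ 2 := le_mul_of_one_le_left (by positivity) e8
      have e10 : La ^ 2 * Z ^ 2 ≤ La ^ 2 * Z ^ 2 * E₀ := le_mul_of_one_le_right (by positivity) hE1
      linarith
    have e7 : ∑ n ∈ Ioc p q, FF (fun p : PS W R => (p : ℕ)) y (pat A B (PS W R) n) ^ 2 ≤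
        9 * La ^ 2 * Z ^ 2 * E₀ := by
      refine e2.trans ?_
      have e8 := mul_le_mul_of_nonneg_left hEx e4
      have e9 : ((q : ℝ) - (p : ℝ)) * E₀ ≤ (8 * La ^ 2 * Z ^ 2) * E₀ :=
        mul_le_mul_of_nonneg_right (e3.trans e5) (by linarith)
      linarith
    calc Real.exp (-a) * ∑ n ∈ Ioc p q, FF (fun p : PS W R => (p : ℕ)) y (pat A B (PS W R) n) ^ 2
        ≤ Real.exp (-a) * (9 * La ^ 2 * Z ^ 2 * E₀) :=
          mul_le_mul_of_nonneg_left e7 (Real.exp_pos _).le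
      _ = 9 * La ^ 2 * (Real.exp (-a) * Z ^ 2) * E₀ := by ring
      _ = Bc * E₀ := by
          rw [hBc, ← hZ2, ← Real.exp_add]
          congr 3
          ring
  -- number of values
  have hVm : ∀ n ∈ S, ν n < Vc := by
    intro n hn
    rw [hVc]
    exact Nat.lt_ceil.2 (hνlt n hn)
  have hHm : ∀ r : ℕ, #{n ∈ S | ν n = r ∧ edge n} ≤ h + 1 := by
    intro r
    refine le_trans (card_le_card ?_) ((hCUB.2 h uu vv r hu0).2 S)
    intro n hn
    rw [mem_filter] at hn ⊢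
    refine ⟨hn.1, hn.2.1, ?_⟩
    have := hn.2.2
    rw [hedge] at this
    simp only [hn.2.1] at this
    exact this
  have hVTQ : (Vc : ℝ) * (T + ((h + 1 : ℕ) : ℝ)) * Q ≤ (c₁ / 2) ^ 2 := by
    have e1 : (Vc : ℝ) ≤ 2 * La * Real.exp (a / 3) := by
      have e2 := Nat.ceil_lt_add_one (show 0 ≤ La * Real.exp (a / 3) by positivity)
      have e3 : 1 ≤ Real.exp (a / 3) := Real.one_le_exp (by positivity)
      have e4 : 1 ≤ La * Real.exp (a / 3) := by nlinarith
      rw [hVc]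
      linarith
    have e2 : T + ((h + 1 : ℕ) : ℝ) ≤ 2 * T := by
      have e3 : ((h + 1 : ℕ) : ℝ) ≤ T := by
        rw [hT, le_div_iff₀ (by positivity)]
        push_cast
        exact haE
      linarith
    calc (Vc : ℝ) * (T + ((h + 1 : ℕ) : ℝ)) * Q ≤
          (2 * La * Real.exp (a / 3)) * (2 * T) * Q := by
          have e5 : (0 : ℝ) ≤ (Vc : ℝ) := Nat.cast_nonneg _
          gcongr
      _ = 4 * La * (Real.exp (a / 3) * Real.exp (2 * a / 3) * Real.exp (-a)) *
            (a ^ K₁ / a ^ K₂) := by rw [hT, hQ]; ring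
      _ = 4 * La * (a ^ K₁ / a ^ K₂) := by
          rw [← Real.exp_add, ← Real.exp_add]
          have : a / 3 + 2 * a / 3 + -a = 0 := by ring
          rw [this, Real.exp_zero, mul_one]
      _ = 4 * La / a := by
          rw [hK₂, pow_succ]
          field_simp
      _ ≤ (c₁ / 2) ^ 2 := by
          rw [div_le_iff₀ ha0]
          rw [div_le_iff₀ (by positivity)] at haD
          linarith
  have hAB := hABS S G w ν edge c₁ E₀ Q Bc T Vc (h + 1) (filter_subset _ _) (fun n _ => hw0 n) hc₁0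
    hE1 hBc0 hT0.le hGm hQm hfib hVm hHm hVTQ
  have hleft : c₁ / (18 * La ^ 2) * Real.exp (a / 3) = c₁ / (2 * Bc) := by
    rw [hBc, Real.exp_neg]
    have : Real.exp (a / 3) ≠ 0 := (Real.exp_pos _).ne'
    field_simp
    ring
  rw [hleft]
  refine hAB.trans ?_
  have hsub : ({r ∈ range Vc | T ≤ ((#{n ∈ G | ν n = r ∧ ¬ edge n} : ℕ) : ℝ)} : Finset ℕ) ⊆
      {r ∈ range Vc | Real.exp (a / 4) ≤ ((r : ℕ) : ℝ) ∧
        Real.exp (2 * a / 3) / a ^ Kc ≤ (cnt h Kc r : ℝ)} := by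
    intro r hr
    rw [mem_filter] at hr ⊢
    obtain ⟨hr1, hr2⟩ := hr
    have hcnt : #{n ∈ G | ν n = r ∧ ¬ edge n} ≤ cnt h Kc r := by
      unfold cnt
      refine card_le_card_of_injOn (fun n => uu * n + vv) ?_ ?_
      · intro n hn
        rw [mem_coe, mem_filter] at hn
        obtain ⟨hnG, hnr, hne⟩ := hn
        rw [hGd, mem_filter] at hnG
        obtain ⟨hnS, hp1, hp2⟩ := hnG
        have hn1 : 1 ≤ n := (hSpos n hnS).1
        rw [hedge] at hne
        push Not at hne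
        simp only [hnr] at hne
        obtain ⟨f1, f2, f3⟩ := Hn n hn1
        rw [mem_coe, mem_filter, mem_Ioo]
        refine ⟨⟨hne.1, lt_of_le_of_lt (Nat.le_add_right _ h) hne.2⟩, hne.2, ⟨s i j, t i j, A j * n + B j, A i * n + B i, hp2, hp1,
          hsK.trans (le_max_left _ _), htK.trans (le_max_left _ _), hst, f1.symm, f2.symm⟩, f3⟩
      · intro n _ n' _ hnn
        have : uu * n = uu * n' := by
          have : uu * n + vv = uu * n' + vv := hnn
          omega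
        exact Nat.eq_of_mul_eq_mul_left hu0 this
    have hTle : Real.exp (2 * a / 3) / a ^ Kc ≤ T := by
      rw [hT]
      refine div_le_div_of_nonneg_left (Real.exp_pos _).le (by positivity) ?_
      exact pow_le_pow_right₀ (by linarith) (le_max_right _ _)
    refine ⟨hr1, ?_, hTle.trans (hr2.trans (by exact_mod_cast hcnt))⟩
    -- an element
    have hne : 0 < #{n ∈ G | ν n = r ∧ ¬ edge n} := by
      by_contra h0
      have : #{n ∈ G | ν n = r ∧ ¬ edge n} = 0 := by omega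
      rw [this] at hr2
      push_cast at hr2
      linarith
    obtain ⟨n, hn⟩ := card_pos.1 hne
    rw [mem_filter] at hn
    obtain ⟨hnG, hnr, hne⟩ := hn
    rw [hGd, mem_filter] at hnG
    obtain ⟨hn0, hn1, hn2⟩ := hSpos n hnG.1
    rw [hedge] at hne
    push Not at hne
    simp only [hnr] at hne
    have g1 : Real.exp a < ((r : ℝ) + 1) ^ 3 := by
      have g2 : ((uu * n + vv : ℕ) : ℝ) < (((r + 1) ^ 3 : ℕ) : ℝ) := by
        exact_mod_cast lt_of_le_of_lt (Nat.le_add_right (uu * n + vv) h) hne.2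
      push_cast at g2
      have g3 : (n : ℝ) ≤ (uu : ℝ) * n + vv := by
        have : n ≤ uu * n + vv := by nlinarith
        exact_mod_cast this
      have g4 : Real.exp a ≤ Real.exp (a + 1 / 2) := Real.exp_le_exp.2 (by linarith)
      linarith
    have g2 : Real.exp (a / 3) < (r : ℝ) + 1 := by
      by_contra hcon
      push Not at hcon
      have g3 : ((r : ℝ) + 1) ^ 3 ≤ Real.exp (a / 3) ^ 3 :=
        pow_le_pow_left₀ (by positivity) hcon 3
      rw [← Real.exp_nat_mul] at g3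
      have g4 : ((3 : ℕ) : ℝ) * (a / 3) = a := by push_cast; ring
      rw [g4] at g3
      linarith
    have g3 : Real.exp (a / 4) * 2 ≤ Real.exp (a / 3) := by
      have g4 : Real.exp (a / 3) = Real.exp (a / 4) * Real.exp (a / 12) := by
        rw [← Real.exp_add]; congr 1; ring
      rw [g4]
      refine mul_le_mul_of_nonneg_left ?_ (Real.exp_pos _).le
      have g5 : a / 12 + 1 ≤ Real.exp (a / 12) := Real.add_one_le_exp _
      linarith
    have g4 : 1 ≤ Real.exp (a / 4) := Real.one_le_exp (by positivity)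
    linarith
  exact_mod_cast card_le_card hsub

end NPC
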