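import Pool.Agent.helper51.NP.Spec
import Pool.Agent.helper99.FC.T3
import Pool.Agent.helper63.FC.B4

/-!
# np M4S: the fourth moment of the sieve weight
-/

set_option autoImplicit false

namespace NPC

open Finset Real ArithmeticFunction Pool.Agent.helper39.MT Pool.Agent.helper85.FC

lemma M4S_sum_le_prod (κ : ℝ) (hκ : 0 ≤ κ) (W z : ℕ) :
    ∑ D ∈ Icc 1 z with Squarefree D ∧ Nat.Coprime D W, κ ^ D.primeFactors.card * (1 / (D : ℝ)) ≤
      ∏ p ∈ PS W z, (1 + κ / (p : ℝ)) := by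
  classical
  rw [Finset.prod_one_add]
  have h1 : ∀ D ∈ (Icc 1 z).filter (fun D => Squarefree D ∧ Nat.Coprime D W),
      κ ^ D.primeFactors.card * (1 / (D : ℝ)) = ∏ p ∈ D.primeFactors, (κ / (p : ℝ)) := by
    intro D hD
    rw [mem_filter] at hD
    have h2 : (D : ℝ) = ∏ p ∈ D.primeFactors, (p : ℝ) := by
      conv_lhs => rw [← Nat.prod_primeFactors_of_squarefree hD.2.1]
      push_cast
      rfl
    rw [prod_div_distrib, prod_const, ← h2]
    ring
  rw [sum_congr rfl h1]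
  have hinj : Set.InjOn (fun D : ℕ => D.primeFactors)
      (((Icc 1 z).filter (fun D => Squarefree D ∧ Nat.Coprime D W) : Finset ℕ) : Set ℕ) := by
    intro D hD E hE hDE
    rw [mem_coe, mem_filter] at hD hE
    simp only at hDE
    rw [← Nat.prod_primeFactors_of_squarefree hD.2.1, hDE,
      Nat.prod_primeFactors_of_squarefree hE.2.1]
  have h3 := sum_image (f := fun T : Finset ℕ => ∏ p ∈ T, (κ / (p : ℝ))) hinj
  rw [← h3]
  apply sum_le_sum_of_subset_of_nonneg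
  · intro T hT
    rw [mem_image] at hT
    obtain ⟨D, hD, rfl⟩ := hT
    rw [mem_filter, mem_Icc] at hD
    rw [mem_powerset]
    intro p hp
    have hp1 := Nat.prime_of_mem_primeFactors hp
    have hp2 := Nat.dvd_of_mem_primeFactors hp
    rw [mem_PS]
    refine ⟨(Nat.le_of_dvd (by omega) hp2).trans hD.1.2, hp1, fun hW => ?_⟩
    have := Nat.dvd_gcd hp2 hW
    rw [hD.2.2] at this
    exact hp1.one_lt.ne' (Nat.dvd_one.1 this)
  · intro T _ _
    exact prod_nonneg fun p _ => by positivity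

/-- **M4S**. -/
theorem M4S (hM4E : M4E_stmt) : M4S_stmt := by
  intro k D₀ W A B h hD
  classical
  obtain ⟨C1, hC1, hprod⟩ := prod_small k
  obtain ⟨C2, hC2, homega⟩ := pow_omega_le (48 * k)
  obtain ⟨C3, hC3, hequi⟩ := wt_equi1
  obtain ⟨a₂, hmass⟩ := mass_bounds
  refine ⟨52 * k + 1, max (max 4 a₂) (C1 ^ 26 + C1 ^ 2 * (C2 * C3)), fun a ha R hR hRa y hy hyR => ?_⟩
  have ha4 : 4 ≤ a := (le_max_left _ _).trans ((le_max_left _ _).trans ha)
  have ha1 : 1 ≤ a := by linarith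
  have hm := (hmass a ((le_max_right _ _).trans ((le_max_left _ _).trans ha))).2
  have hbig : C1 ^ 26 + C1 ^ 2 * (C2 * C3) ≤ a := (le_max_right _ _).trans ha
  have hprime : ∀ p : PS W R, (p : ℕ).Prime := fun p => (mem_PS.1 p.2).2.1
  have hsmall : ∀ p : ℕ, p.Prime → p ≤ 4 * k + 4 → p ∣ W := fun p hp hle =>
    h.small p hp (hle.trans hD)
  have hlarge : ∀ p : PS W R, 4 * k + 4 ≤ (p : ℕ) := by
    intro p
    by_contra hlt
    exact (mem_PS.1 p.2).2.2 (hsmall p (hprime p) (by omega))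
  choose ν hν1 hν2 hν3 using fun τ : PS W R → Option (Fin k) => ind_pat (R := R) h τ
  set P : ℝ := ∏ p : PS W R, (1 + (k : ℝ) / (((p : ℕ) : ℝ) - 1)) ^ 2 with hP
  have hP0 : 0 ≤ P := prod_nonneg fun p _ => sq_nonneg _
  have hY4 : Real.exp (a / 16) ^ 4 = Real.exp (a / 4) := by
    rw [← Real.exp_nat_mul]; congr 1; push_cast; ring
  have hexp := fun e => hM4E (fun p : PS W R => (p : ℕ)) y (Real.exp (a / 16)) hlarge hy hyR e
  have hPe : (∏ p : PS W R, (1 + (k : ℝ) / (((p : ℕ) : ℝ) - 1)) ^ 2) ^ 2 = P ^ 2 := by rw [hP]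
  -- log R ≤ a, the product
  have hPle : P ≤ C1 * a ^ (2 * k) := by
    refine (hprod W R hR hsmall).trans (mul_le_mul_of_nonneg_left ?_ hC1.le)
    have hR1 : (1 : ℝ) < R := by exact_mod_cast (by omega : 1 < R)
    have h1 : Real.log R ≤ a := by
      rw [Real.log_le_iff_le_exp (by linarith)]
      exact hRa
    exact pow_le_pow_left₀ (Real.log_nonneg hR1.le) h1 _
  -- the sum over n
  have hstep1 : ∑ n ∈ Ioc 0 (NN 1 a), wt 1 a n * FF (fun p : PS W R => (p : ℕ)) y (pat A B (PS W R) n) ^ 4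
      ≤ ∑ n ∈ Ioc 0 (NN 1 a), wt 1 a n * ∑ υ : PS W R → Option (Fin k) with
        (dd (fun p : PS W R => (p : ℕ)) υ : ℝ) ≤ Real.exp (a / 4),
          P ^ 2 * (48 : ℝ) ^ (#{p | υ p ≠ none}) * ind υ (pat A B (PS W R) n) := by
    refine sum_le_sum fun n _ => mul_le_mul_of_nonneg_left ?_ (wt_nonneg _ _ _)
    have h1 := hexp (pat A B (PS W R) n)
    rw [hPe, hY4] at h1
    exact h1
  have hstep2 : ∑ n ∈ Ioc 0 (NN 1 a), wt 1 a n * ∑ υ : PS W R → Option (Fin k) with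
        (dd (fun p : PS W R => (p : ℕ)) υ : ℝ) ≤ Real.exp (a / 4),
          P ^ 2 * (48 : ℝ) ^ (#{p | υ p ≠ none}) * ind υ (pat A B (PS W R) n) =
      P ^ 2 * ∑ υ : PS W R → Option (Fin k) with
        (dd (fun p : PS W R => (p : ℕ)) υ : ℝ) ≤ Real.exp (a / 4),
          (48 : ℝ) ^ (#{p | υ p ≠ none}) * ∑ n ∈ Ioc 0 (NN 1 a) with
            n ≡ ν υ [MOD dd (fun p : PS W R => (p : ℕ)) υ], wt 1 a n := by
    simp only [mul_sum]
    rw [sum_comm]
    refine sum_congr rfl fun υ _ => ?_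
    rw [sum_filter]
    refine sum_congr rfl fun n _ => ?_
    rw [hν2 υ n]
    split_ifs
    · ring
    · ring
  have hstep3 : ∑ υ : PS W R → Option (Fin k) with
        (dd (fun p : PS W R => (p : ℕ)) υ : ℝ) ≤ Real.exp (a / 4),
          (48 : ℝ) ^ (#{p | υ p ≠ none}) * ∑ n ∈ Ioc 0 (NN 1 a) with
            n ≡ ν υ [MOD dd (fun p : PS W R => (p : ℕ)) υ], wt 1 a n ≤
      ∑ υ : PS W R → Option (Fin k) with
        (dd (fun p : PS W R => (p : ℕ)) υ : ℝ) ≤ Real.exp (a / 4),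
          ((48 : ℕ) : ℝ) ^ (#{p | υ p ≠ none}) *
            (fun D : ℕ => 1 / (D : ℝ) + C3 * Real.exp (-a)) (dd (fun p : PS W R => (p : ℕ)) υ) := by
    refine sum_le_sum fun υ _ => ?_
    have hd : 0 < dd (fun p : PS W R => (p : ℕ)) υ := (Nat.zero_le _).trans_lt (hν1 υ)
    have h1 := hequi a ha1 _ (ν υ) hd
    have h2 := (abs_le.1 h1).2
    push_cast
    refine mul_le_mul_of_nonneg_left ?_ (by positivity)
    have h3 : mass a / (dd (fun p : PS W R => (p : ℕ)) υ : ℝ) ≤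
        1 / (dd (fun p : PS W R => (p : ℕ)) υ : ℝ) :=
      div_le_div_of_nonneg_right hm (Nat.cast_nonneg _)
    linarith
  have hstep4 := sum_labels' k W R (Real.exp (a / 4))
    (fun D : ℕ => 1 / (D : ℝ) + C3 * Real.exp (-a)) (fun D => by positivity) 48
  -- the two sums over D
  set z : ℕ := ⌊Real.exp (a / 4)⌋₊ with hz
  have hzle : (z : ℝ) ≤ Real.exp (a / 4) := Nat.floor_le (Real.exp_pos _).le
  have hz2 : 2 ≤ z := by
    apply Nat.le_floor
    have : (1 : ℝ) + 1 ≤ Real.exp (a / 4) := by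
      have h1 := Real.add_one_le_exp (a / 4)
      linarith
    push_cast
    linarith
  have hlogz : Real.log z ≤ a := by
    have hz1 : (0 : ℝ) < z := by exact_mod_cast (by omega : 0 < z)
    rw [Real.log_le_iff_le_exp hz1]
    exact hzle.trans (Real.exp_le_exp.2 (by linarith))
  have hlogz0 : 0 ≤ Real.log z := Real.log_nonneg (by exact_mod_cast (by omega : 1 ≤ z))
  have hS1 : ∑ D ∈ Icc 1 z with Squarefree D ∧ Nat.Coprime D W,
      ((48 * k : ℕ) : ℝ) ^ D.primeFactors.card * (1 / (D : ℝ)) ≤ (C1 * a ^ (2 * k)) ^ 24 := by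
    refine (M4S_sum_le_prod ((48 * k : ℕ) : ℝ) (Nat.cast_nonneg _) W z).trans ?_
    have h1 : ∏ p ∈ PS W z, (1 + ((48 * k : ℕ) : ℝ) / (p : ℝ)) ≤
        (∏ p ∈ PS W z, (1 + (k : ℝ) / ((p : ℝ) - 1)) ^ 2) ^ 24 := by
      rw [← prod_pow]
      refine prod_le_prod (fun p _ => by positivity) fun p hp => ?_
      have hp1 : (1 : ℝ) < p := by exact_mod_cast (mem_PS.1 hp).2.1.one_lt
      have hx : 0 ≤ (k : ℝ) / ((p : ℝ) - 1) := div_nonneg (Nat.cast_nonneg _) (by linarith)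
      have h2 : (k : ℝ) / (p : ℝ) ≤ (k : ℝ) / ((p : ℝ) - 1) :=
        div_le_div_of_nonneg_left (Nat.cast_nonneg _) (by linarith) (by linarith)
      have h3 := one_add_mul_le_pow (a := (k : ℝ) / ((p : ℝ) - 1)) (by linarith) 48
      rw [← pow_mul]
      refine le_trans ?_ h3
      push_cast
      have h4 : (48 * (k : ℝ)) / (p : ℝ) = 48 * ((k : ℝ) / (p : ℝ)) := by ring
      rw [h4]
      linarith
    refine h1.trans ?_
    have h0 : ∏ p : PS W z, (1 + (k : ℝ) / (((p : ℕ) : ℝ) - 1)) ^ 2 =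
        ∏ p ∈ PS W z, (1 + (k : ℝ) / ((p : ℝ) - 1)) ^ 2 :=
      prod_coe_sort (PS W z) (fun p => (1 + (k : ℝ) / ((p : ℝ) - 1)) ^ 2)
    rw [← h0]
    apply pow_le_pow_left₀ (prod_nonneg fun p _ => sq_nonneg _)
    refine (hprod W z hz2 hsmall).trans (mul_le_mul_of_nonneg_left ?_ hC1.le)
    exact pow_le_pow_left₀ hlogz0 hlogz _
  have hS2 : ∑ D ∈ Icc 1 z with Squarefree D ∧ Nat.Coprime D W,
      ((48 * k : ℕ) : ℝ) ^ D.primeFactors.card * (C3 * Real.exp (-a)) ≤ C2 * C3 := by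
    calc ∑ D ∈ Icc 1 z with Squarefree D ∧ Nat.Coprime D W,
          ((48 * k : ℕ) : ℝ) ^ D.primeFactors.card * (C3 * Real.exp (-a))
        ≤ ∑ D ∈ Icc 1 z, ((48 * k : ℕ) : ℝ) ^ D.primeFactors.card * (C3 * Real.exp (-a)) :=
          sum_le_sum_of_subset_of_nonneg (filter_subset _ _) fun _ _ _ => by positivity
      _ ≤ ∑ _D ∈ Icc 1 z, (C2 * Real.exp (a / 4)) * (C3 * Real.exp (-a)) := by
          refine sum_le_sum fun D hD' => ?_
          rw [mem_Icc] at hD'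
          refine mul_le_mul_of_nonneg_right ?_ (by positivity)
          refine (homega D (by omega)).trans (mul_le_mul_of_nonneg_left ?_ hC2.le)
          have hD1 : (1 : ℝ) ≤ D := by exact_mod_cast hD'.1
          calc (D : ℝ) ^ (1 / 4 : ℝ) ≤ (D : ℝ) ^ (1 : ℝ) :=
                Real.rpow_le_rpow_of_exponent_le hD1 (by norm_num)
            _ = D := Real.rpow_one _
            _ ≤ (z : ℝ) := by exact_mod_cast hD'.2
            _ ≤ _ := hzle
      _ = (z : ℝ) * ((C2 * Real.exp (a / 4)) * (C3 * Real.exp (-a))) := by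
          rw [sum_const, Nat.card_Icc, nsmul_eq_mul, Nat.add_sub_cancel]
      _ ≤ Real.exp (a / 4) * ((C2 * Real.exp (a / 4)) * (C3 * Real.exp (-a))) :=
          mul_le_mul_of_nonneg_right hzle (by positivity)
      _ = C2 * C3 * (Real.exp (a / 4) * Real.exp (a / 4) * Real.exp (-a)) := by ring
      _ = C2 * C3 * Real.exp (-(a / 2)) := by
          rw [← Real.exp_add, ← Real.exp_add]; congr 2; ring
      _ ≤ C2 * C3 * 1 := by
          refine mul_le_mul_of_nonneg_left ?_ (by positivity)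
          rw [Real.exp_le_one_iff]; linarith
      _ = C2 * C3 := mul_one _
  have hstep5 : ∑ D ∈ Icc 1 z with Squarefree D ∧ Nat.Coprime D W,
      ((48 * k : ℕ) : ℝ) ^ D.primeFactors.card *
        (fun D : ℕ => 1 / (D : ℝ) + C3 * Real.exp (-a)) D ≤ (C1 * a ^ (2 * k)) ^ 24 + C2 * C3 := by
    simp only [mul_add, sum_add_distrib]
    exact add_le_add hS1 hS2
  have hsum := hstep3.trans (hstep4.trans hstep5)
  rw [hstep2] at hstep1
  refine hstep1.trans ?_
  have hP2 : P ^ 2 ≤ (C1 * a ^ (2 * k)) ^ 2 := pow_le_pow_left₀ hP0 hPle 2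
  have hT0 : 0 ≤ (C1 * a ^ (2 * k)) ^ 24 + C2 * C3 := by positivity
  calc P ^ 2 * ∑ υ : PS W R → Option (Fin k) with
        (dd (fun p : PS W R => (p : ℕ)) υ : ℝ) ≤ Real.exp (a / 4),
          (48 : ℝ) ^ (#{p | υ p ≠ none}) * ∑ n ∈ Ioc 0 (NN 1 a) with
            n ≡ ν υ [MOD dd (fun p : PS W R => (p : ℕ)) υ], wt 1 a n
      ≤ P ^ 2 * ((C1 * a ^ (2 * k)) ^ 24 + C2 * C3) :=
        mul_le_mul_of_nonneg_left hsum (sq_nonneg _)
    _ ≤ (C1 * a ^ (2 * k)) ^ 2 * ((C1 * a ^ (2 * k)) ^ 24 + C2 * C3) :=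
        mul_le_mul_of_nonneg_right hP2 hT0
    _ = C1 ^ 26 * a ^ (52 * k) + C1 ^ 2 * (C2 * C3) * a ^ (4 * k) := by
        have e1 : a ^ (52 * k) = (a ^ (2 * k)) ^ 26 := by rw [← pow_mul]; congr 1; ring
        have e2 : a ^ (4 * k) = (a ^ (2 * k)) ^ 2 := by rw [← pow_mul]; congr 1; ring
        rw [e1, e2]
        ring
    _ ≤ C1 ^ 26 * a ^ (52 * k) + C1 ^ 2 * (C2 * C3) * a ^ (52 * k) := by
        have : a ^ (4 * k) ≤ a ^ (52 * k) := pow_le_pow_right₀ ha1 (by omega)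
        have h2 : 0 ≤ C1 ^ 2 * (C2 * C3) := by positivity
        linarith [mul_le_mul_of_nonneg_left this h2]
    _ = (C1 ^ 26 + C1 ^ 2 * (C2 * C3)) * a ^ (52 * k) := by ring
    _ ≤ a * a ^ (52 * k) := mul_le_mul_of_nonneg_right hbig (by positivity)
    _ = a ^ (52 * k + 1) := by rw [pow_succ]; ring

end NPC
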