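import Pool.Agent.helper57.NP.FQ
import Pool.Agent.helper87.NP.FX
import Pool.Agent.helper25.NP.FRM
import Pool.Agent.helper11.NP.M4E
import Pool.Agent.helper51.NP.M4S
import Pool.Agent.helper75.NP.S1S
import Pool.Agent.helper50.NP.MAS
import Pool.Agent.helper12.NP.ABS
import Pool.Agent.helper67.NP.CUB
import Pool.Agent.helper51.NP.CNT
import Pool.Agent.helper62.NP.FIN

/-!
# Project np (MP_5628fe_nt): assembly
-/

set_option autoImplicit false

namespace NPC

theorem np_fin : FIN_stmt :=
  FIN (CNT (FRM FQ FX) (M4S M4E) S1S MAS ABS CUB)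

end NPC
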