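import Pool.Agent.helper85.FC.F1
import Pool.Agent.helper44.MT.CO2

/-!
# Project np (MP_5628fe_nt): near primes `m = a p`, `m + h = b q` between consecutive cubes

RULES. Module `XX` proves `theorem XX (hYY : YY_stmt) ... : XX_stmt` in the file
`Pool/Agent/<seat>/NP/XX.lean`: `import Pool.Agent.helper51.NP.Spec` (plus library files),
`set_option autoImplicit false`, `namespace NPC`, and the `open` line of this file. Hypotheses may be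
any other statement of this file (no circles; those named in the docstrings are enough). Auxiliary
lemmas are prefixed `XX_`. No `sorry`, no double quotes.

Library (Maynard-Tao, all proved): `helper39.MT.Defs` (`Std`, `PS`, `FF`, `pat`, `Ex`, `mu0`, `mu1`,
`dd`, `ind`, `wt`, `NN`), `helper85.FC.Defs` (`mass`, `pmass`, `lam`), `FF_expand`, `ind_pat`,
`Ex_mu0_ind`, `prod_small`, `pow_omega_le`, `sum_labels'`, `wt_equi1`, `S1_gen`, `S2_gen`, `model5`,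
`mass_bounds`, `F1_mass`, `F1_wt_support`, `B5_wt_le`, `heath_brown_set`.
-/

set_option autoImplicit false

namespace NPC

open Finset Real ArithmeticFunction Pool.Agent.helper39.MT Pool.Agent.helper85.FC

/-! ## Definitions -/

/-- `m = a p` and `m + h = b q` with primes `p`, `q` and `a`, `b` at most `K` with equally many prime
factors, and there is no prime strictly between `m` and `m + h`. -/
def NearPair (h K m : ℕ) : Prop :=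
  (∃ a b p q : ℕ, p.Prime ∧ q.Prime ∧ a ≤ K ∧ b ≤ K ∧ cardFactors a = cardFactors b ∧
    m = a * p ∧ m + h = b * q) ∧
  ∀ l : ℕ, m < l → l < m + h → ¬ l.Prime

open Classical in
/-- The number of the near pairs between `r ^ 3` and `(r + 1) ^ 3`. -/
noncomputable def cnt (h K r : ℕ) : ℕ :=
  #{m ∈ Ioo (r ^ 3) ((r + 1) ^ 3) | m + h < (r + 1) ^ 3 ∧ NearPair h K m}

/-- The integral part of the cube root. -/
def cr (x : ℕ) : ℕ := Nat.findGreatest (fun r => r ^ 3 ≤ x) x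

/-! ## Part 1: the forms -/

/-- **FQ** (medium). uses: nothing. The numbers between are composite.
With `α = g i / (g j - g i)` the location of the pair `i < j` is `α * (g j * x + h)`.
Proof. Choose distinct primes `q = q (i, j, τ)` (for `i < j`, `0 < τ < h`), all larger than
`(α + 1) * g j` for all `i < j` (e.g. `q = Nat.nth Nat.Prime (N₀ + index)`, or an injection of the finite
index set into the infinite set of primes `> N₀`). As `q ∤ α * g j` (`α ≥ 1` because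
`(g j - g i) ∣ g i`), there is a residue `x` modulo `q` with `q ∣ α * (g j * x + h) + τ`. CRT
(`Nat.chineseRemainderOfFinset`). `M` = the product of the `q`. If `M ≤ x` the number
`α * (g j * x + h) + τ > x ≥ q` is divisible by `q`, so it is not prime. -/
def FQ_stmt : Prop := ∀ (k h : ℕ) (g : Fin k → ℕ), StrictMono g → (∀ i, 0 < g i) →
  (∀ i j, i < j → (g j - g i) ∣ g i) → ∃ x₁ M : ℕ, 0 < M ∧ ∀ x : ℕ, x ≡ x₁ [MOD M] → M ≤ x →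
    ∀ i j, i < j → ∀ τ : ℕ, 0 < τ → τ < h → ¬ (g i / (g j - g i) * (g j * x + h) + τ).Prime

/-- **FX** (medium/long). uses: nothing. The class of `x` and the fixed divisors `c i`.
Proof. Let `D` be larger than `D₀`, `M`, `h` and all `g i`, `E = 1 + ∑ i, (g i * x₁ + h)` (so
`p ^ E > g i * x₁ + h`), `M₂ = M * (∏ p ≤ D prime, p) ^ E`, and `c' i` the part of `g i * x₁ + h`
composed of the primes `≤ D` (`∏ p ≤ D, p ^ (factorization)`). For every `x ≡ x₁ [MOD M₂]` and `p ≤ D` the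
exponent of `p` in `g i * x + h` is the one in `g i * x₁ + h` (it is `< E`, and
`p ^ E ∣ g i * (x - x₁)`). Let `r i` be distinct primes `> D`, `S = 1 + ∑ l, Ω (c' l)` and
`e i = S + Ω (g i) - Ω (c' i) ≥ 1`. CRT (pairwise coprime moduli `M₂`, `r i ^ (e i + 1)`; `r i ∤ g i`):
`x₂ ≡ x₁ [MOD M₂]`, `g i * x₂ + h ≡ r i ^ e i [MOD r i ^ (e i + 1)]`. Put `c i = c' i * r i ^ e i`,
`W = M₂ * ∏ i, r i ^ (e i + 1)`. For `l ≠ i`: `r i ∤ g l * x₂ + h`, because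
`g i (g l x₂ + h) - g l (g i x₂ + h) = h (g i - g l)` is not divisible by `r i > D`. So
`(g i * x₂ + h) / c i` is prime to `W`: for `p ≤ D` the exponents agree, `r i` divides `g i x₂ + h` exactly
`e i` times, `r l ∤ g i x₂ + h`. A prime divisor `p` of `W` is `≤ D` or an `r l`, and `c i * p ∣ W`
(exponents: `< E + 1 ≤` for `p ≤ D`; `e i + 1` for `r i`). -/
def FX_stmt : Prop := ∀ (k h : ℕ) (g : Fin k → ℕ), StrictMono g → (∀ i, 0 < g i) → 0 < h →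
  ∀ x₁ M D₀ : ℕ, 0 < M → ∃ (x₂ W S : ℕ) (c : Fin k → ℕ), x₂ ≡ x₁ [MOD M] ∧ M ∣ W ∧ 0 < W ∧
    (∀ p : ℕ, p.Prime → p ≤ D₀ → p ∣ W) ∧ (∀ p : ℕ, p.Prime → p ∣ h → p ∣ W) ∧
    (∀ p : ℕ, p.Prime → ∀ i, p ∣ g i → p ∣ W) ∧
    (∀ p : ℕ, p.Prime → ∀ i j, i < j → p ∣ g j - g i → p ∣ W) ∧
    ∀ i, 0 < c i ∧ c i ∣ g i * x₂ + h ∧ (∀ p : ℕ, p.Prime → p ∣ W → c i * p ∣ W) ∧
      Nat.Coprime ((g i * x₂ + h) / c i) W ∧ cardFactors (c i) = cardFactors (g i) + S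

/-- **FRM** (medium). uses: FQ_stmt, FX_stmt, library `heath_brown_set`. The forms.
Proof. `g` from `heath_brown_set k` (`(g j - g i) ∣ g i` for `i < j`), `x₁, M` from FQ, `x₂, W, c, S` from
FX. Put `A i = g i * W / c i` (`c i ∣ W`: if `W = 1` then `D₀ < 2`; use `c i * p ∣ W` for a prime `p ∣ W`,
or replace `D₀` by `max D₀ 2`), `B i = (g i * x₂ + h) / c i`, so
`c i * (A i * n + B i) = g i * (x₂ + W * n) + h`. `Std`: `dvdA`: `p ∣ W` gives `c i * p ∣ W`, so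
`p ∣ W / c i ∣ A i`; conversely `p ∣ A i ∣ g i * W` gives `p ∣ g i` or `p ∣ W`, so `p ∣ W`. `cop`: from FX.
`det`: `c i c j (A i B j - A j B i) = W h (g i - g j)`, so a prime divisor divides `W`, `h` or
`g i - g j`, hence `W`. For `i < j`, `d = g j - g i`, `g i = α d`, `g j = (α + 1) d`, `α ≥ 1`:
`u = α (α + 1) d W`, `v = α (g j x₂ + h)`, `s = α c j`, `t = (α + 1) c i`:
`s (A j n + B j) = α (g j (x₂ + W n) + h) = u n + v`, `t (A i n + B i) = (α + 1)(g i (x₂ + W n) + h) =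
u n + v + h`. `Ω s = Ω α + Ω (g j) + S`, `Ω t = Ω (α + 1) + Ω (g i) + S`, and both are
`Ω (g i) + Ω (g j) - Ω d + S` (`ArithmeticFunction.cardFactors_mul`). No primes between: FQ with
`x = x₂ + W n ≡ x₁ [MOD M]`, `x ≥ W n ≥ M` for `n ≥ 1`; `l = u n + v + τ`. `K` = the sum of all `s`, `t`. -/
def FRM_stmt : Prop := ∀ (h k D₀ : ℕ), 0 < h → ∃ (A B : Fin k → ℕ) (W K : ℕ), Std k D₀ A B W ∧
  ∀ i j : Fin k, i < j → ∃ u v s t : ℕ, 0 < u ∧ 0 < s ∧ s ≤ K ∧ 0 < t ∧ t ≤ K ∧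
    cardFactors s = cardFactors t ∧ ∀ n : ℕ, 1 ≤ n →
      s * (A j * n + B j) = u * n + v ∧ t * (A i * n + B i) = u * n + v + h ∧
      ∀ l : ℕ, u * n + v < l → l < u * n + v + h → ¬ l.Prime

/-! ## Part 2: the weights -/

/-- **M4E** (medium). uses: library `FF_expand`. Expansion of the fourth power.
Proof. `FF^2 = ∑ τ, c τ * ind τ`, `|c τ| ≤ P * 6 ^ #supp τ`, `c τ ≠ 0 → dd τ ≤ Y ^ 2` (`FF_expand`,
`T3_dd_le_mul`). `FF^4 = ∑ τ, ∑ τ', c τ c τ' ind τ ind τ'`; `ind τ e * ind τ' e` is `0` or `ind υ e` with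
`υ p = τ p` if `τ p ≠ none`, else `τ' p` (it is `0` unless for all `p`: `τ p = none`, `τ' p = none` or
`τ p = τ' p`), and `dd υ ≤ dd τ * dd τ' ≤ Y ^ 4`. For fixed `υ` the sum over the compatible pairs `(τ, τ')`
with union `υ` of `6 ^ (#supp τ + #supp τ')` is the product over `p ∈ supp υ` of `6 + 6 + 36 = 48`
(`Finset.prod_univ_sum`/`Fintype.piFinset`; each of `τ p, τ' p` is `none` or `υ p`, not both `none`). -/
def M4E_stmt : Prop := ∀ {ι : Type} [Fintype ι] [DecidableEq ι] {k : ℕ} (pr : ι → ℕ)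
  (y : (ι → Option (Fin k)) → ℝ) (Y : ℝ), (∀ p, 4 * k + 4 ≤ pr p) → (∀ σ, |y σ| ≤ 1) →
  (∀ σ, y σ ≠ 0 → (dd pr σ : ℝ) ≤ Y) → ∀ e : ι → Option (Fin k),
    FF pr y e ^ 4 ≤ ∑ υ : ι → Option (Fin k) with (dd pr υ : ℝ) ≤ Y ^ 4,
      (∏ p, (1 + (k : ℝ) / ((pr p : ℝ) - 1)) ^ 2) ^ 2 * 48 ^ (#{p | υ p ≠ none}) * ind υ e

/-- **M4S** (medium). uses: M4E_stmt; library `ind_pat`, `wt_equi1`, `sum_labels'`, `prod_small`,
`pow_omega_le`, `mass_bounds`. The fourth moment of the weight.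
Proof. As in `S1_gen` (`helper99/FC/T3.lean`), with M4E, `Y = e^(a/16)`: for every `υ`,
`∑ n, wt 1 a n * ind υ (pat n) = ∑_{n ≡ ν [MOD dd υ]} wt 1 a n ≤ mass a / dd υ + C e^(-a)`. `sum_labels'`
with `t = 48`, `Y ^ 4 = e^(a/4)`, `X D = 1 / D + C e^(-a)`:
`∑ ≤ P ^ 2 * ∑_{D ≤ e^(a/4) squarefree, prime to W} (48 k)^ω(D) (1 / D + C e^(-a))`. The first part is at most
`∏_{p ≤ e^a} (1 + 48 k / p) ≤ C a ^ (48 k)` (compare `prod_small`), the second at most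
`C e^(-a) e^(a/4) C₂ e^(a/4)`. `P ≤ C a ^ (2 k)`. -/
def M4S_stmt : Prop := ∀ {k D₀ W : ℕ} {A B : Fin k → ℕ}, Std k D₀ A B W → 4 * k + 4 ≤ D₀ →
  ∃ (K₁ : ℕ) (a₁ : ℝ), ∀ a : ℝ, a₁ ≤ a → ∀ R : ℕ, 2 ≤ R → (R : ℝ) ≤ Real.exp a →
    ∀ y : (PS W R → Option (Fin k)) → ℝ, (∀ σ, |y σ| ≤ 1) →
    (∀ σ, y σ ≠ 0 → (dd (fun p : PS W R => (p : ℕ)) σ : ℝ) ≤ Real.exp (a / 16)) →
    ∑ n ∈ Ioc 0 (NN 1 a), wt 1 a n * FF (fun p : PS W R => (p : ℕ)) y (pat A B (PS W R) n) ^ 4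
      ≤ a ^ K₁

/-- **S1S** (short/medium). uses: library. The weight in a short interval.
Proof. Copy of `S1_gen` (`helper99/FC/T3.lean`) with the weight `wt 1 a n` replaced by the indicator of
`Ioc u v`: `|#{n ∈ Ioc u v | n ≡ ν [MOD d]} - (v - u) / d| ≤ 1`
(`Pool.Agent.Lib.BrunHooley.card_modEq_approx`), and `∑ τ, |c τ| ≤ P * C₂ e^(a/4) ≤ e^(a/2)`. -/
def S1S_stmt : Prop := ∀ {k D₀ W : ℕ} {A B : Fin k → ℕ}, Std k D₀ A B W → 4 * k + 4 ≤ D₀ →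
  ∃ a₁ : ℝ, ∀ a : ℝ, a₁ ≤ a → ∀ R : ℕ, 2 ≤ R → (R : ℝ) ≤ Real.exp a →
    ∀ y : (PS W R → Option (Fin k)) → ℝ, (∀ σ, |y σ| ≤ 1) →
    (∀ σ, y σ ≠ 0 → (dd (fun p : PS W R => (p : ℕ)) σ : ℝ) ≤ Real.exp (a / 16)) →
    ∀ u v : ℕ, u ≤ v →
      ∑ n ∈ Ioc u v, FF (fun p : PS W R => (p : ℕ)) y (pat A B (PS W R) n) ^ 2
        ≤ ((v : ℝ) - u) * Ex (fun p : PS W R => mu0 (p : ℝ))
            (fun e => FF (fun p : PS W R => (p : ℕ)) y e ^ 2) + Real.exp (a / 2)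

/-- **MAS** (medium). uses: library `model5`, `S1_gen`, `S2_gen`, `mass_bounds`, `F1_mass`. The integers
with two primes carry a positive proportion of the weight, on every scale.
Proof. Copy of the proof of `cluster_std` (`helper85/FC/F1.lean`) up to and including the bounds S1, S2
and `lam ≤ 1001/1000 a` (the off-diagonal part is not needed): `kc`, `D₀` from
`model5 10 (1/2000)`, `k = 5 kc`, `c = 1 / kc`, `R = ⌊e^(a/4)⌋`, `M = mass a`, `G = M E₀`, `t = (W/φ(W)) M E₁`,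
`10 a G ≤ kc t`. With `v n = wt 1 a n * FF^2`: `∑ v ≤ 1.001 G`, `∑ v lam_i ≥ 0.998 t` for every `i`, and
`∑_i lam_i ≤ 1.001 a` if at most one form is prime, `≤ 5.005 kc a` always. So
`4.99 kc t ≤ 1.003 a G + 5.005 kc a ∑_good v ≤ 0.11 kc t + 5.005 kc a ∑_good v`, hence
`∑_good v ≥ 0.9 t / a ≥ 9 G / kc ≥ E₀ / kc` (`M ≥ 1/8`). -/
def MAS_stmt : Prop := ∃ k D₀ : ℕ, 2 ≤ k ∧ 4 * k + 4 ≤ D₀ ∧ ∃ c : ℝ, 0 < c ∧
  ∀ (A B : Fin k → ℕ) (W : ℕ), Std k D₀ A B W → ∃ a₁ : ℝ, ∀ a : ℝ, a₁ ≤ a →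
    ∃ (R : ℕ) (y : (PS W R → Option (Fin k)) → ℝ) (E₀ : ℝ), 2 ≤ R ∧ (R : ℝ) ≤ Real.exp a ∧
      (∀ σ, |y σ| ≤ 1) ∧
      (∀ σ, y σ ≠ 0 → (dd (fun p : PS W R => (p : ℕ)) σ : ℝ) ≤ Real.exp (a / 16)) ∧
      1 ≤ E₀ ∧ Ex (fun p : PS W R => mu0 (p : ℝ))
        (fun e => FF (fun p : PS W R => (p : ℕ)) y e ^ 2) ≤ E₀ ∧
      c * E₀ ≤ ∑ n ∈ Ioc 0 (NN 1 a) with 2 ≤ #{i : Fin k | (A i * n + B i).Prime},
        wt 1 a n * FF (fun p : PS W R => (p : ℕ)) y (pat A B (PS W R) n) ^ 2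

/-! ## Part 3: counting -/

/-- **ABS** (medium). uses: nothing. The abstract counting lemma.
Proof. Let `N` be the set of the `n ∈ G` with `edge n`, or with `#{n' ∈ G | ν n' = ν n ∧ ¬ edge n'} < T`.
`#N ≤ V (H + T)` (fibres over `range V`). Cauchy-Schwarz: `∑_{N} w ≤ √(#N * Q) ≤ c₁ / 2 ≤ c₁ E / 2`. The other
elements of `G` lie over the set `Z` of the conclusion: `∑_{G \ N} w ≤ #Z * B * E`. So
`c₁ E / 2 ≤ #Z * B * E`. -/
def ABS_stmt : Prop := ∀ (S G : Finset ℕ) (w : ℕ → ℝ) (ν : ℕ → ℕ) (edge : ℕ → Prop)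
  [DecidablePred edge] (c₁ E Q B T : ℝ) (V H : ℕ), G ⊆ S → (∀ n ∈ S, 0 ≤ w n) → 0 < c₁ → 1 ≤ E →
  0 < B → 0 ≤ T → c₁ * E ≤ ∑ n ∈ G, w n → ∑ n ∈ S, w n ^ 2 ≤ Q →
  (∀ r : ℕ, ∑ n ∈ S with ν n = r, w n ≤ B * E) → (∀ n ∈ S, ν n < V) →
  (∀ r : ℕ, #{n ∈ S | ν n = r ∧ edge n} ≤ H) → (V : ℝ) * (T + H) * Q ≤ (c₁ / 2) ^ 2 →
  c₁ / (2 * B) ≤ ((#{r ∈ range V | T ≤ ((#{n ∈ G | ν n = r ∧ ¬ edge n} : ℕ) : ℝ)} : ℕ) : ℝ)

/-- **CUB** (short/medium). uses: nothing. Cube roots.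
Proof. (1) `Nat.findGreatest_spec`, `Nat.findGreatest_is_greatest` (`0 ^ 3 ≤ x`; `(r + 1) ^ 3 ≤ x` implies
`r + 1 ≤ x`). (2) `cr x = r` means `r ^ 3 ≤ x < (r + 1) ^ 3`. The `n ≥ 1` with `r ^ 3 ≤ u n + v < (r + 1) ^ 3`: if
`n₀` is the least one, `p = n₀ - 1`, then `u (n - n₀) < 3 r ^ 2 + 3 r + 1`, so `n ≤ p + 3 r ^ 2 + 3 r + 2` (if
there is none take `p = q = 0`). (3) on the set, `u n + v` is `r ^ 3` or one of the `h` numbers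
`(r + 1) ^ 3 - h, …, (r + 1) ^ 3 - 1`, and `n ↦ u n + v` is injective. -/
def CUB_stmt : Prop := (∀ x : ℕ, cr x ^ 3 ≤ x ∧ x < (cr x + 1) ^ 3) ∧
  ∀ (h u v r : ℕ), 0 < u → (∃ p q : ℕ, p ≤ q ∧ q ≤ p + 3 * r ^ 2 + 3 * r + 2 ∧
    ∀ n : ℕ, 1 ≤ n → cr (u * n + v) = r → n ∈ Ioc p q) ∧
    ∀ S : Finset ℕ, #{n ∈ S | cr (u * n + v) = r ∧
      ¬ (r ^ 3 < u * n + v ∧ u * n + v + h < (r + 1) ^ 3)} ≤ h + 1

/-- **CNT** (LONG). uses: FRM_stmt, M4S_stmt, S1S_stmt, MAS_stmt, ABS_stmt, CUB_stmt; library `B5_wt_le`,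
`F1_wt_support`. One scale.
Proof. `k, D₀, c` from MAS, `A, B, W, K` and `u, v, s, t` (for the finitely many pairs `i < j`) from FRM,
`K₁` from M4S, `K₂ = K₁ + 1`, `Λ ≥ 1` with `8 (3 u + v) ≤ Λ ^ 3` for all pairs; the constant of the theorem
is the maximum of `K`, `K₂`. Fix a large `a`, and `R, y, E₀` from MAS. `S = {n ∈ Ioc 0 (NN 1 a) | wt 1 a n ≠ 0}`,
`w n = wt 1 a n * FF^2`. If two of the forms are prime at `n`, there are `i < j` with `A i n + B i`,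
`A j n + B j` prime; pigeonhole: for some pair `i < j` the set `G` of the `n ∈ S` where these two are
prime has `∑_G w ≥ c E₀ / k ^ 2`. Apply ABS with `ν n = cr (u n + v)`,
`edge n = ¬ (ν n ^ 3 < u n + v ∧ u n + v + h < (ν n + 1) ^ 3)`, `c₁ = c / k ^ 2`, `E = E₀`,
`Q = e^(-a) a ^ K₁` (`w ^ 2 = wt ^ 2 FF^4 ≤ e^(-a) wt FF^4`), `V = ⌈Λ e^(a/3)⌉`
(`(cr (u n + v)) ^ 3 ≤ u e^(a+1) + v < (Λ e^(a/3)) ^ 3`), `B = 9 Λ ^ 2 e^(-a/3)` (CUB, S1S and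
`w ≤ e^(-a) FF^2`: the sum over `ν n = r` is `≤ e^(-a) ((3 r ^ 2 + 3 r + 2) E₀ + e^(a/2))` and
`r ≤ Λ e^(a/3)`, otherwise it is empty), `H = h + 1`, `T = e^(2a/3) / a ^ K₂`;
`V (T + H) Q ≤ 2 Λ e^(a/3) * 2 e^(2a/3) a^(-K₂) * e^(-a) a ^ K₁ = 4 Λ / a ≤ (c₁ / 2) ^ 2` for large `a`. For every
`r` of the conclusion the `m = u n + v` (injective in `n`) are counted by `cnt h K r` (`m = s * (A j n + B j)`,
`m + h = t * (A i n + B i)`), so `cnt h K r ≥ T > 0`, and `(r + 1) ^ 3 > m ≥ n ≥ e ^ a` gives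
`r ≥ e^(a/3) - 1 ≥ e^(a/4)`. `c₁ / (2 B) = c₁ / (18 Λ ^ 2) * e^(a/3)`. -/
def CNT_stmt : Prop := ∀ h : ℕ, 0 < h → ∃ (K : ℕ) (c La a₁ : ℝ), 0 < c ∧ 0 < La ∧
  ∀ a : ℝ, a₁ ≤ a → c * Real.exp (a / 3) ≤
    ((#{r ∈ range ⌈La * Real.exp (a / 3)⌉₊ | Real.exp (a / 4) ≤ ((r : ℕ) : ℝ) ∧
      Real.exp (2 * a / 3) / a ^ K ≤ (cnt h K r : ℝ)} : ℕ) : ℝ)

/-- **FIN** (short/medium). uses: CNT_stmt. The theorem.
Proof. `cnt h K r ≤ cnt h K' r` for `K ≤ K'`. Given a large `N`, `a = 3 log (N / La)`, so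
`La e^(a/3) = N` and `c e^(a/3) = (c / La) N`. The `r` counted satisfy `2 ≤ r < N`, `log r ≥ a / 4 ≥ 1`,
`r ^ 2 ≤ La ^ 2 e^(2a/3)`; so `r ^ 2 / (log r) ^ K' ≤ r ^ 2 / (log r) ^ (K + 1) ≤ La ^ 2 4 ^ (K+1) e^(2a/3) / a ^ (K+1) ≤
e^(2a/3) / a ^ K` as soon as `La ^ 2 4 ^ (K + 1) ≤ a`, `K' ≥ K + 1`. `K'` is also larger than the bound from
which on `N` is large enough. -/
def FIN_stmt : Prop := ∀ h : ℕ, 0 < h → ∃ (K : ℕ) (c : ℝ), 0 < c ∧ ∀ N : ℕ, K ≤ N →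
  c * N ≤ ((#{n ∈ Icc (2 : ℕ) N | ((n : ℕ) : ℝ) ^ 2 / Real.log (n : ℝ) ^ K ≤ (cnt h K n : ℝ)} : ℕ) : ℝ)

end NPC
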